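import Pool.Agent.U722.FF.Stm

/-!
# Project FF, package OR: an invariant orientation of the edges
-/

set_option autoImplicit false

namespace Pool.Agent.U458.FFP

open U722.FF MulAction

theorem t_OR : S_OR := by
  intro G V _ _ T hT hinv
  classical
  let r : orbitRel.Quotient G (V × V) → orbitRel.Quotient G (V × V) → Prop := WellOrderingRel
  let cl : V × V → orbitRel.Quotient G (V × V) := fun p => Quotient.mk _ p
  have hcl : ∀ (g : G) (a b : V), cl (g • a, g • b) = cl (a, b) := by
    intro g a b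
    refine Quotient.sound ?_
    exact ⟨g, rfl⟩
  have hne : ∀ u v : V, T.Adj u v → cl (u, v) ≠ cl (v, u) := by
    intro u v huv h
    obtain ⟨g, hg⟩ := Quotient.exact h
    have h1 : g • v = u := congrArg Prod.fst hg
    have h2 : g • u = v := congrArg Prod.snd hg
    exact hinv g u v huv h2 h1
  let P : V × V → Prop := fun p => T.Adj p.1 p.2 ∧ r (cl (p.1, p.2)) (cl (p.2, p.1))
  have hP : ∀ (g : G) (p : V × V), P p → P (g • p.1, g • p.2) := by
    intro g p hp
    refine ⟨hT g _ _ hp.1, ?_⟩
    show r (cl (g • p.1, g • p.2)) (cl (g • p.2, g • p.1))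
    rw [hcl, hcl]
    exact hp.2
  let act : MulAction G {p : V × V // P p} :=
    { smul := fun g e => ⟨(g • e.1.1, g • e.1.2), hP g e.1 e.2⟩
      one_smul := by
        rintro ⟨⟨a, b⟩, h⟩
        apply Subtype.ext
        show ((1 : G) • a, (1 : G) • b) = (a, b)
        rw [one_smul, one_smul]
      mul_smul := by
        rintro g g' ⟨⟨a, b⟩, h⟩
        apply Subtype.ext
        show ((g * g') • a, (g * g') • b) = (g • g' • a, g • g' • b)
        rw [mul_smul, mul_smul] }
  refine ⟨{p : V × V // P p}, act, fun e => e.1.1, fun e => e.1.2, ?_⟩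
  refine ⟨fun g e => rfl, fun g e => rfl, fun e => e.2.1, ?_, ?_, ?_⟩
  · intro e e' h1 h2
    exact Subtype.ext (Prod.ext h1 h2)
  · intro e e' h1 h2
    have h3 := e.2.2
    have h4 := e'.2.2
    have h5 : e.1.1 = e'.1.2 := h1
    have h6 : e.1.2 = e'.1.1 := h2
    rw [h5, h6] at h3
    exact asymm_of r h3 h4
  · intro u v huv
    rcases trichotomous_of r (cl (u, v)) (cl (v, u)) with h | h | h
    · exact ⟨⟨(u, v), huv, h⟩, Or.inl ⟨rfl, rfl⟩⟩
    · exact absurd h (hne u v huv)
    · exact ⟨⟨(v, u), huv.symm, h⟩, Or.inr ⟨rfl, rfl⟩⟩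

end Pool.Agent.U458.FFP
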